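import Pool.Agent.DPF.Stmts

/-!
# SHF (MP_d97b4e_co, squad DPF): the shift commutes with `fam`
-/

set_option autoImplicit false

namespace Pool.Agent.DPF.H19

open Finset Pool.Agent.DPS Pool.Agent.DPF

variable {n : ℕ}

theorem cmp_pos {c y : Fin n} (hyc : y ≠ c) {K : Finset (Fin n)} (h1 : y ∉ K) (h2 : c ∈ K) :
    UV.compress {y} {c} K = insert y (K.erase c) := by
  have h : Disjoint ({y} : Finset (Fin n)) K ∧ ({c} : Finset (Fin n)) ≤ K :=
    ⟨Finset.disjoint_singleton_left.2 h1, Finset.singleton_subset_iff.2 h2⟩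
  unfold UV.compress
  rw [if_pos h]
  ext x
  simp only [Finset.sup_eq_union, Finset.mem_sdiff, Finset.mem_union, Finset.mem_singleton,
    Finset.mem_insert, Finset.mem_erase]
  constructor
  · rintro ⟨h3 | h3, h4⟩
    · exact Or.inr ⟨h4, h3⟩
    · exact Or.inl h3
  · rintro (h3 | ⟨h3, h4⟩)
    · exact ⟨Or.inr h3, by rw [h3]; exact hyc⟩
    · exact ⟨Or.inl h4, h3⟩

theorem cmp_neg {c y : Fin n} {K : Finset (Fin n)} (h : ¬ (y ∉ K ∧ c ∈ K)) :
    UV.compress {y} {c} K = K := by
  have h' : ¬ (Disjoint ({y} : Finset (Fin n)) K ∧ ({c} : Finset (Fin n)) ≤ K) := by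
    rintro ⟨a, b⟩
    exact h ⟨Finset.disjoint_singleton_left.1 a, Finset.singleton_subset_iff.1 b⟩
  unfold UV.compress
  rw [if_neg h']

theorem tr_cmp {l : ℕ} {c y : Fin n} (hyc : y ≠ c) (hc : c.val < l) (hy : y.val < l)
    (K : Finset (Fin n)) :
    UV.compress {y} {c} K ∩ ini n l = UV.compress {y} {c} (K ∩ ini n l) := by
  have mc : c ∈ ini n l := by simp [ini, hc]
  have my : y ∈ ini n l := by simp [ini, hy]
  by_cases h : y ∉ K ∧ c ∈ K
  · rw [cmp_pos hyc h.1 h.2, cmp_pos hyc (fun hh => h.1 (Finset.mem_inter.1 hh).1)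
      (Finset.mem_inter.2 ⟨h.2, mc⟩)]
    ext x
    simp only [Finset.mem_inter, Finset.mem_insert, Finset.mem_erase]
    constructor
    · rintro ⟨h3 | ⟨h3, h4⟩, h5⟩
      · exact Or.inl h3
      · exact Or.inr ⟨h3, h4, h5⟩
    · rintro (h3 | ⟨h3, h4, h5⟩)
      · exact ⟨Or.inl h3, by rw [h3]; exact my⟩
      · exact ⟨Or.inr ⟨h3, h4⟩, h5⟩
  · rw [cmp_neg h, cmp_neg]
    rintro ⟨a, b⟩
    exact h ⟨fun hh => a (Finset.mem_inter.2 ⟨hh, my⟩), (Finset.mem_inter.1 b).1⟩

theorem card_cmp (c y : Fin n) (K : Finset (Fin n)) :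
    (UV.compress {y} {c} K).card = K.card :=
  UV.card_compress (by simp) K

theorem mem_fam {k l : ℕ} {𝒯 : Finset (Finset (Fin n))} {K : Finset (Fin n)} :
    K ∈ fam k l 𝒯 ↔ K.card = k ∧ K ∩ ini n l ∈ 𝒯 := by
  simp [fam, Finset.mem_powersetCard]

/-- SHF -/
theorem shf : SHFStmt := by
  intro n k l c y 𝒯 hyc hc hy
  have mc : c ∈ ini n l := by simp [ini, hc]
  have my : y ∈ ini n l := by simp [ini, hy]
  ext K
  rw [mem_fam, UV.mem_compression, UV.mem_compression, mem_fam, mem_fam, card_cmp,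
    tr_cmp hyc hc hy]
  constructor
  · rintro ⟨hk, ⟨h1, h2⟩ | ⟨h1, b, hb, hbe⟩⟩
    · exact Or.inl ⟨⟨hk, h1⟩, hk, h2⟩
    · refine Or.inr ⟨fun h => h1 h.2, ?_⟩
      by_cases hcond : y ∉ b ∧ c ∈ b
      · have e1 := cmp_pos hyc hcond.1 hcond.2
        rw [hbe] at e1
        -- `K ∩ ini = insert y (b.erase c)`
        have hyK : y ∈ K := by
          have : y ∈ K ∩ ini n l := by rw [e1]; exact Finset.mem_insert_self _ _
          exact (Finset.mem_inter.1 this).1
        have hcK : c ∉ K := by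
          intro hcK
          have : c ∈ K ∩ ini n l := Finset.mem_inter.2 ⟨hcK, mc⟩
          rw [e1] at this
          rcases Finset.mem_insert.1 this with h | h
          · exact hyc h.symm
          · exact (Finset.mem_erase.1 h).1 rfl
        have e2 : UV.compress {y} {c} (insert c (K.erase y)) = K := by
          rw [cmp_pos hyc]
          · rw [Finset.erase_insert (fun h => hcK (Finset.mem_erase.1 h).2),
              Finset.insert_erase hyK]
          · intro h
            rcases Finset.mem_insert.1 h with h | h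
            · exact hyc h
            · exact (Finset.mem_erase.1 h).1 rfl
          · exact Finset.mem_insert_self _ _
        refine ⟨insert c (K.erase y), ?_, e2⟩
        rw [mem_fam]
        refine ⟨?_, ?_⟩
        · rw [← hk]
          conv_rhs => rw [← e2]
          rw [card_cmp]
        · have e3 : insert c (K.erase y) ∩ ini n l = b := by
            ext x
            have hx : x ∈ K ∩ ini n l ↔ x ∈ insert y (b.erase c) := by rw [e1]
            simp only [Finset.mem_inter, Finset.mem_insert, Finset.mem_erase] at hx ⊢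
            constructor
            · rintro ⟨h3 | ⟨h3, h4⟩, h5⟩
              · rw [h3]; exact hcond.2
              · rcases hx.1 ⟨h4, h5⟩ with h6 | h6
                · exact absurd h6 h3
                · exact h6.2
            · intro h3
              by_cases hxc : x = c
              · exact ⟨Or.inl hxc, by rw [hxc]; exact mc⟩
              · have hxy : x ≠ y := fun hxy => hcond.1 (by rw [← hxy]; exact h3)
                have h4 := hx.2 (Or.inr ⟨hxc, h3⟩)
                exact ⟨Or.inr ⟨hxy, h4.1⟩, h4.2⟩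
          rw [e3]
          exact hb
      · rw [cmp_neg hcond] at hbe
        exact absurd (by rw [← hbe]; exact hb) h1
  · rintro (⟨⟨hk, h1⟩, -, h2⟩ | ⟨h1, B, hB, hBe⟩)
    · exact ⟨hk, Or.inl ⟨h1, h2⟩⟩
    · rw [mem_fam] at hB
      have hk : K.card = k := by rw [← hBe, card_cmp, hB.1]
      refine ⟨hk, Or.inr ⟨fun h => h1 ⟨hk, h⟩, B ∩ ini n l, hB.2, ?_⟩⟩
      rw [← tr_cmp hyc hc hy, hBe]

end Pool.Agent.DPF.H19
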